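import Mathlib

/-!
# Cubic twists by the subproducts of a tuple of primes: linear algebra
-/

set_option autoImplicit false

open scoped Classical

namespace Pool.Agent.T2H25.CB

open Finset

variable {s r : ℕ}

/-- the number with the exponents `e` -/
def num (p : Fin s ⊕ Fin r → ℕ) (e : Fin s ⊕ Fin r → ZMod 3) : ℕ := ∏ i, p i ^ (e i).val

/-- the matrix -/
def mat (R : Fin s → Fin s ⊕ Fin r → ZMod 3) (e : Fin s ⊕ Fin r → ZMod 3) :
    Matrix (Fin s) (Fin s) (ZMod 3) := fun i l =>
  if e (Sum.inl i) = 0 then (if i = l then 1 else 0) else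
    e (Sum.inl l) * R i (Sum.inl l) - if i = l then ∑ m, e m * R i m else 0

/-- all the solutions are constant -/
def good (R : Fin s → Fin s ⊕ Fin r → ZMod 3) (e : Fin s ⊕ Fin r → ZMod 3) : Prop :=
  ∀ c : Fin s ⊕ Fin r → ZMod 3, (∀ i : Fin s, e (Sum.inl i) ≠ 0 →
    ∑ l, (c l - c (Sum.inl i)) * (e l * R i l) = 0) → ∀ i l, e i ≠ 0 → e l ≠ 0 → c i = c l

theorem mul_eq (R : Fin s → Fin s ⊕ Fin r → ZMod 3) (e : Fin s ⊕ Fin r → ZMod 3) {i : Fin s}
    (hi : e (Sum.inl i) ≠ 0) (v : Fin s → ZMod 3) :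
    (mat R e).mulVec v i = ∑ l : Fin s ⊕ Fin r, (Sum.elim v (fun _ => 0) l - v i) * (e l * R i l) := by
  have hm : ∀ l : Fin s, mat R e i l =
      e (Sum.inl l) * R i (Sum.inl l) - if i = l then ∑ m, e m * R i m else 0 := by
    intro l
    unfold mat
    rw [if_neg hi]
  unfold Matrix.mulVec dotProduct
  simp only [hm]
  rw [Fintype.sum_sum_type fun l : Fin s ⊕ Fin r =>
    (Sum.elim v (fun _ => 0) l - v i) * (e l * R i l)]
  simp only [Sum.elim_inl, Sum.elim_inr]
  have e1 : ∀ l : Fin s, (e (Sum.inl l) * R i (Sum.inl l) - if i = l then ∑ m, e m * R i m else 0) * v l =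
      v l * (e (Sum.inl l) * R i (Sum.inl l)) - (if i = l then (∑ m, e m * R i m) * v l else 0) := by
    intro l
    split_ifs
    · ring
    · ring
  rw [Finset.sum_congr rfl fun l _ => e1 l, Finset.sum_sub_distrib, Finset.sum_ite_eq]
  rw [if_pos (mem_univ i), Fintype.sum_sum_type fun m => e m * R i m]
  have e2 : ∑ l : Fin s, (v l - v i) * (e (Sum.inl l) * R i (Sum.inl l)) =
      ∑ l : Fin s, v l * (e (Sum.inl l) * R i (Sum.inl l)) -
        v i * ∑ l : Fin s, e (Sum.inl l) * R i (Sum.inl l) := by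
    rw [Finset.mul_sum, ← Finset.sum_sub_distrib]
    exact Finset.sum_congr rfl fun l _ => by ring
  have e3 : ∑ j : Fin r, (0 - v i) * (e (Sum.inr j) * R i (Sum.inr j)) =
      - (v i * ∑ j : Fin r, e (Sum.inr j) * R i (Sum.inr j)) := by
    rw [Finset.mul_sum, ← Finset.sum_neg_distrib]
    exact Finset.sum_congr rfl fun l _ => by ring
  rw [e2, e3]
  ring

theorem mul_eq0 (R : Fin s → Fin s ⊕ Fin r → ZMod 3) (e : Fin s ⊕ Fin r → ZMod 3) {i : Fin s}
    (hi : e (Sum.inl i) = 0) (v : Fin s → ZMod 3) : (mat R e).mulVec v i = v i := by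
  have hm : ∀ l : Fin s, mat R e i l = if i = l then 1 else 0 := by
    intro l
    unfold mat
    rw [if_pos hi]
  unfold Matrix.mulVec dotProduct
  simp only [hm, ite_mul, one_mul, zero_mul, Finset.sum_ite_eq, mem_univ, if_true]

theorem det_iff (R : Fin s → Fin s ⊕ Fin r → ZMod 3) (e : Fin s ⊕ Fin r → ZMod 3)
    (he : ∃! j : Fin r, e (Sum.inr j) ≠ 0) : (mat R e).det ≠ 0 ↔ good R e := by
  obtain ⟨j0, hj0, hj1⟩ := he
  have hj2 : ∀ j, j ≠ j0 → e (Sum.inr j) = 0 := by
    intro j hj
    by_contra h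
    exact hj (hj1 j h)
  rw [Ne, ← Matrix.exists_mulVec_eq_zero_iff]
  push Not
  constructor
  · intro h c hc
    have key : ∀ i : Fin s, e (Sum.inl i) ≠ 0 → c (Sum.inl i) = c (Sum.inr j0) := by
      set v : Fin s → ZMod 3 := fun i => if e (Sum.inl i) = 0 then 0 else
        c (Sum.inl i) - c (Sum.inr j0) with hv
      have hv0 : (mat R e).mulVec v = 0 := by
        funext i
        rw [Pi.zero_apply]
        by_cases hi : e (Sum.inl i) = 0
        · rw [mul_eq0 R e hi]
          simp only [hv, if_pos hi]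
        · rw [mul_eq R e hi]
          refine Eq.trans (Finset.sum_congr rfl fun l _ => ?_) (hc i hi)
          rcases l with l | l
          · by_cases hl : e (Sum.inl l) = 0
            · rw [hl]; ring
            · simp only [Sum.elim_inl, hv, if_neg hi, if_neg hl]
              ring
          · by_cases hl : l = j0
            · rw [hl]
              simp only [Sum.elim_inr, hv, if_neg hi]
              ring
            · rw [hj2 l hl]; ring
      have hv1 : v = 0 := by
        by_contra h1
        exact h v h1 hv0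
      intro i hi
      have h2 := congrFun hv1 i
      simp only [hv, if_neg hi, Pi.zero_apply] at h2
      exact sub_eq_zero.1 h2
    have key2 : ∀ i, e i ≠ 0 → c i = c (Sum.inr j0) := by
      intro i hi
      rcases i with i | i
      · exact key i hi
      · rw [hj1 i hi]
    intro i l hi hl
    rw [key2 i hi, key2 l hl]
  · intro h v hv hv0
    apply hv
    funext i
    rw [Pi.zero_apply]
    have hi0 := congrFun hv0 i
    rw [Pi.zero_apply] at hi0
    by_cases hi : e (Sum.inl i) = 0
    · rw [mul_eq0 R e hi] at hi0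
      exact hi0
    · have h1 := h (Sum.elim v (fun _ => 0)) (fun k hk => by
        rw [Sum.elim_inl, ← mul_eq R e hk]
        exact congrFun hv0 k) (Sum.inl i) (Sum.inr j0) hi hj0
      simpa using h1

/-- the possible symbols -/
def DR (s r : ℕ) : Finset (Fin s → Fin s ⊕ Fin r → ZMod 3) :=
  univ.filter fun R => ∀ i, R i (Sum.inl i) = 0

/-- the probability -/
noncomputable def prob (Φ : (Fin s → Fin s ⊕ Fin r → ZMod 3) → Prop) : ℝ :=
  (((DR s r).filter Φ).card : ℝ) / ((DR s r).card : ℝ)

theorem DR_eq (s r : ℕ) : DR s r = Fintype.piFinset fun i : Fin s =>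
    Fintype.piFinset fun l : Fin s ⊕ Fin r => if l = Sum.inl i then {0} else univ := by
  ext R
  unfold DR
  rw [mem_filter, Fintype.mem_piFinset]
  constructor
  · rintro ⟨-, h⟩ i
    rw [Fintype.mem_piFinset]
    intro l
    split_ifs with h1
    · rw [h1, h i, mem_singleton]
    · exact mem_univ _
  · intro h
    refine ⟨mem_univ _, fun i => ?_⟩
    have h1 := (Fintype.mem_piFinset.1 (h i)) (Sum.inl i)
    rw [if_pos rfl, mem_singleton] at h1
    exact h1

/-! ### all the twists -/

/-- the exponents with one inert prime -/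
noncomputable def One (s r : ℕ) : Finset (Fin s ⊕ Fin r → ZMod 3) :=
  univ.filter fun e => ∃! j : Fin r, e (Sum.inr j) ≠ 0

theorem pair_dec : ∀ x y u w : ZMod 3, u ≠ 0 → w ≠ 0 → (x ≠ 0 ∨ y ≠ 0) → ∃ a b v₁ v₂ : ZMod 3,
    a ≠ 0 ∧ b ≠ 0 ∧ (v₁ ≠ 0 ∨ v₂ ≠ 0) ∧ (v₂ - v₁) * (b * x) + (0 - v₁) * u = 0 ∧
      (v₁ - v₂) * (a * y) + (0 - v₂) * w = 0 := by
  decide

theorem single_inr {s r : ℕ} (e : Fin s ⊕ Fin r → ZMod 3) (j : Fin r)
    (h1 : e (Sum.inr j) = 1) (h2 : ∀ l, l ≠ j → e (Sum.inr l) = 0) :
    ∃! j : Fin r, e (Sum.inr j) ≠ 0 := by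
  refine ⟨j, ?_, ?_⟩
  · show e (Sum.inr j) ≠ 0
    rw [h1]
    exact one_ne_zero
  · intro l hl
    by_contra h3
    exact hl (h2 l h3)

theorem all_iff (hr : 0 < r) {R : Fin s → Fin s ⊕ Fin r → ZMod 3} (hR : ∀ i, R i (Sum.inl i) = 0) :
    (∀ e ∈ One s r, (mat R e).det ≠ 0) ↔
      (∀ i l, R i (Sum.inl l) = 0) ∧ ∀ i j, R i (Sum.inr j) ≠ 0 := by
  have key : (∀ e ∈ One s r, (mat R e).det ≠ 0) ↔ ∀ e ∈ One s r, good R e := by
    refine forall₂_congr fun e he => ?_
    unfold One at he
    rw [mem_filter] at he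
    exact det_iff R e he.2
  rw [key]
  have mem : ∀ e : Fin s ⊕ Fin r → ZMod 3, (∃! j : Fin r, e (Sum.inr j) ≠ 0) → e ∈ One s r := by
    intro e he
    unfold One
    rw [mem_filter]
    exact ⟨mem_univ _, he⟩
  constructor
  · intro h
    have h1 : ∀ i j, R i (Sum.inr j) ≠ 0 := by
      intro i j h0
      set e : Fin s ⊕ Fin r → ZMod 3 :=
        fun l => if l = Sum.inl i then 1 else if l = Sum.inr j then 1 else 0 with he
      have e1 : e (Sum.inl i) = 1 := by simp [he]
      have e2 : e (Sum.inr j) = 1 := by simp [he]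
      have e3 : ∀ l, l ≠ Sum.inl i → l ≠ Sum.inr j → e l = 0 := by
        intro l h1 h2
        simp only [he, if_neg h1, if_neg h2]
      have h2 := h e (mem e (single_inr e j e2 fun l hl => e3 _ (by simp) (by simpa using hl)))
        (fun l => if l = Sum.inl i then 1 else 0) (fun k hk => by
          have hk2 : k = i := by
            by_contra h4
            exact hk (e3 _ (by simpa using h4) (by simp))
          subst hk2
          refine Finset.sum_eq_zero fun l _ => ?_
          by_cases h5 : l = Sum.inl k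
          · rw [if_pos h5, if_pos rfl, sub_self, zero_mul]
          · by_cases h6 : l = Sum.inr j
            · rw [h6, h0, mul_zero, mul_zero]
            · rw [e3 l h5 h6, zero_mul, mul_zero])
        (Sum.inl i) (Sum.inr j) (by rw [e1]; exact one_ne_zero) (by rw [e2]; exact one_ne_zero)
      simp at h2
    refine ⟨fun i k => ?_, h1⟩
    by_cases hik : k = i
    · rw [hik, hR i]
    by_contra hx
    set j : Fin r := ⟨0, hr⟩ with hj
    obtain ⟨a, b, v₁, v₂, ha, hb, hv, hq1, hq2⟩ := pair_dec (R i (Sum.inl k)) (R k (Sum.inl i))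
      (R i (Sum.inr j)) (R k (Sum.inr j)) (h1 i j) (h1 k j) (Or.inl hx)
    have hne : (Sum.inl k : Fin s ⊕ Fin r) ≠ Sum.inl i := by simpa using hik
    set e : Fin s ⊕ Fin r → ZMod 3 := fun l => if l = Sum.inl i then a else
      if l = Sum.inl k then b else if l = Sum.inr j then 1 else 0 with he
    have e1 : e (Sum.inl i) = a := by simp [he]
    have e2 : e (Sum.inl k) = b := by simp [he, hik]
    have e3 : e (Sum.inr j) = 1 := by simp [he]
    have e4 : ∀ l, l ≠ Sum.inl i → l ≠ Sum.inl k → l ≠ Sum.inr j → e l = 0 := by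
      intro l g1 g2 g3
      simp only [he, if_neg g1, if_neg g2, if_neg g3]
    set c : Fin s ⊕ Fin r → ZMod 3 := fun l => if l = Sum.inl i then v₁ else
      if l = Sum.inl k then v₂ else 0 with hc
    have c1 : c (Sum.inl i) = v₁ := by simp [hc]
    have c2 : c (Sum.inl k) = v₂ := by simp [hc, hik]
    have c3 : c (Sum.inr j) = 0 := by simp [hc]
    have hsum : ∀ f : Fin s ⊕ Fin r → ZMod 3, (∀ l, l ≠ Sum.inl i → l ≠ Sum.inl k →
        l ≠ Sum.inr j → f l = 0) → ∑ l, f l = f (Sum.inl i) + f (Sum.inl k) + f (Sum.inr j) := by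
      intro f hf
      have hss : ∑ l ∈ ({Sum.inl i, Sum.inl k, Sum.inr j} : Finset (Fin s ⊕ Fin r)), f l =
          ∑ l, f l := by
        refine Finset.sum_subset (Finset.subset_univ _) fun l _ hl => ?_
        simp only [mem_insert, mem_singleton, not_or] at hl
        exact hf l hl.1 hl.2.1 hl.2.2
      rw [← hss, Finset.sum_insert (by simp [Ne.symm hik]), Finset.sum_insert (by simp),
        Finset.sum_singleton, add_assoc]
    have h2 := h e (mem e (single_inr e j e3 fun l hl => e4 _ (by simp) (by simp) (by simpa using hl)))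
      c (fun m hm => by
        by_cases g1 : m = i
        · subst g1
          rw [hsum _ fun l g1 g2 g3 => by rw [e4 l g1 g2 g3, zero_mul, mul_zero], c1, c2, c3, e2,
            e3, sub_self, zero_mul, zero_add, one_mul]
          exact hq1
        · by_cases g2 : m = k
          · subst g2
            rw [hsum _ fun l g1 g2 g3 => by rw [e4 l g1 g2 g3, zero_mul, mul_zero], c1, c2, c3, e1,
              e3, sub_self, zero_mul, add_zero, one_mul]
            exact hq2
          · exact absurd (e4 _ (by simpa using g1) (by simpa using g2) (by simp)) hm)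
    have g1 := h2 (Sum.inl i) (Sum.inr j) (by rw [e1]; exact ha) (by rw [e3]; exact one_ne_zero)
    have g2 := h2 (Sum.inl k) (Sum.inr j) (by rw [e2]; exact hb) (by rw [e3]; exact one_ne_zero)
    rw [c1, c3] at g1
    rw [c2, c3] at g2
    rcases hv with hv | hv
    · exact hv g1
    · exact hv g2
  · rintro ⟨h1, h2⟩ e he c hc
    unfold One at he
    rw [mem_filter] at he
    obtain ⟨-, j0, hj0, hj1⟩ := he
    have key2 : ∀ i, e i ≠ 0 → c i = c (Sum.inr j0) := by
      intro i hi
      rcases i with i | i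
      · have h3 := hc i hi
        rw [Fintype.sum_sum_type] at h3
        rw [Finset.sum_eq_zero fun l _ => by rw [h1, mul_zero, mul_zero], zero_add,
          Finset.sum_eq_single j0 (fun l _ hl => by
            have h4 : e (Sum.inr l) = 0 := by
              by_contra h5
              exact hl (hj1 l h5)
            rw [h4, zero_mul, mul_zero]) (fun h4 => absurd (mem_univ _) h4)] at h3
        rcases mul_eq_zero.1 h3 with h4 | h4
        · exact (sub_eq_zero.1 h4).symm
        · rcases mul_eq_zero.1 h4 with h5 | h5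
          · exact absurd h5 hj0
          · exact absurd h5 (h2 i j0)
      · rw [hj1 i hi]
    intro i l hi hl
    rw [key2 i hi, key2 l hl]

theorem card_DR (s r : ℕ) : (DR s r).card = 3 ^ (s * (s + r - 1)) := by
  rw [DR_eq, Fintype.card_piFinset]
  have h : ∀ i : Fin s, (Fintype.piFinset fun l : Fin s ⊕ Fin r =>
      if l = Sum.inl i then ({0} : Finset (ZMod 3)) else univ).card = 3 ^ (s + r - 1) := by
    intro i
    rw [Fintype.card_piFinset]
    have h1 : ∀ l : Fin s ⊕ Fin r, (if l = Sum.inl i then ({0} : Finset (ZMod 3)) else univ).card =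
        if l = Sum.inl i then 1 else 3 := by
      intro l
      split_ifs
      · rfl
      · rfl
    rw [Finset.prod_congr rfl fun l _ => h1 l, Finset.prod_ite, Finset.prod_const_one, one_mul,
      Finset.prod_const, Finset.filter_ne', Finset.card_erase_of_mem (mem_univ _), Finset.card_univ,
      Fintype.card_sum, Fintype.card_fin, Fintype.card_fin]
  rw [Finset.prod_congr rfl fun i _ => h i, Finset.prod_const, Finset.card_univ, Fintype.card_fin,
    ← pow_mul, mul_comm]

theorem card_all (s r : ℕ) : ((DR s r).filter fun R => (∀ i l, R i (Sum.inl l) = 0) ∧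
    ∀ i j, R i (Sum.inr j) ≠ 0).card = 2 ^ (r * s) := by
  have h0 : ((DR s r).filter fun R => (∀ i l, R i (Sum.inl l) = 0) ∧
      ∀ i j, R i (Sum.inr j) ≠ 0) = Fintype.piFinset fun _ : Fin s =>
        Fintype.piFinset fun l : Fin s ⊕ Fin r => if l.isLeft = true then {0} else {1, 2} := by
    ext R
    unfold DR
    rw [mem_filter, mem_filter, Fintype.mem_piFinset]
    constructor
    · rintro ⟨-, h1, h2⟩ i
      rw [Fintype.mem_piFinset]
      intro l
      rcases l with l | l
      · simp [h1 i l]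
      · have h3 := h2 i l
        have h4 : ∀ x : ZMod 3, x ≠ 0 → x ∈ ({1, 2} : Finset (ZMod 3)) := by decide
        simpa using h4 _ h3
    · intro h
      have h1 : ∀ i l, R i (Sum.inl l) = 0 := by
        intro i l
        have := (Fintype.mem_piFinset.1 (h i)) (Sum.inl l)
        simpa using this
      refine ⟨⟨mem_univ _, fun i => h1 i i⟩, h1, fun i j => ?_⟩
      have h3 := (Fintype.mem_piFinset.1 (h i)) (Sum.inr j)
      have h4 : ∀ x : ZMod 3, x ∈ ({1, 2} : Finset (ZMod 3)) → x ≠ 0 := by decide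
      exact h4 _ (by simpa using h3)
  have h2 : (Fintype.piFinset fun l : Fin s ⊕ Fin r =>
      if l.isLeft = true then ({0} : Finset (ZMod 3)) else {1, 2}).card = 2 ^ r := by
    have h3 : ({1, 2} : Finset (ZMod 3)).card = 2 := Finset.card_pair (by decide)
    rw [Fintype.card_piFinset, Fintype.prod_sum_type]
    simp [h3]
  rw [h0, Fintype.card_piFinset, Finset.prod_congr rfl fun i _ => h2, Finset.prod_const,
    Finset.card_univ, Fintype.card_fin, ← pow_mul]

theorem prob_congr {Φ Ψ : (Fin s → Fin s ⊕ Fin r → ZMod 3) → Prop}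
    (h : ∀ R ∈ DR s r, (Φ R ↔ Ψ R)) : prob Φ = prob Ψ := by
  unfold prob
  rw [Finset.filter_congr h]

/-- **The probability that all the twists are good.** -/
theorem prob_all (s r : ℕ) (hr : 0 < r) :
    prob (fun R : Fin s → Fin s ⊕ Fin r → ZMod 3 => ∀ e ∈ One s r, (mat R e).det ≠ 0) =
      (2 / 3) ^ (r * s) * (1 / 3) ^ (s * (s - 1)) := by
  rw [prob_congr (Ψ := fun R => (∀ i l, R i (Sum.inl l) = 0) ∧ ∀ i j, R i (Sum.inr j) ≠ 0)
    fun R hR => by
      unfold DR at hR
      rw [mem_filter] at hR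
      exact all_iff hr hR.2]
  have h3 : ∀ Ψ : (Fin s → Fin s ⊕ Fin r → ZMod 3) → Prop,
      (∀ R, Ψ R ↔ (∀ i l, R i (Sum.inl l) = 0) ∧ ∀ i j, R i (Sum.inr j) ≠ 0) →
      ((DR s r).filter Ψ).card = 2 ^ (r * s) := by
    intro Ψ hΨ
    rw [← card_all s r]
    exact congrArg Finset.card (Finset.filter_congr fun R _ => hΨ R)
  unfold prob
  rw [h3 _ fun R => Iff.rfl, card_DR]
  have e2 : s * (s + r - 1) = r * s + s * (s - 1) := by
    rcases s with _ | s
    · simp
    · have : s + 1 + r - 1 = r + (s + 1 - 1) := by omega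
      rw [this]; ring
  rw [e2, pow_add, div_pow, div_pow, one_pow]
  push_cast
  rw [div_mul_div_comm, mul_one]

end Pool.Agent.T2H25.CB
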