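import Pool.Agent.T2H25.CB.Color
import Pool.Agent.Y419.CX.EQ

/-!
# The law of the symbols of the tuples of different primes, general form
-/

set_option autoImplicit false

open scoped Classical

namespace Pool.Agent.T2H25.CB

open Finset
open Pool.Agent.Y703.CX (lam prs HB)

variable {ι : Type} [Fintype ι]

theorem mem_prs_gen {J : Finset ι} {e : ι × ι} : e ∈ prs J ↔ e.1 ∈ J ∧ e.2 ≠ e.1 := by
  unfold prs
  rw [mem_filter]
  exact ⟨fun h => h.2, fun h => ⟨mem_univ _, h⟩⟩

theorem card_fun_gen (J : Finset ι) : Nat.card (prs J → ZMod 3) = 3 ^ (prs J).card := by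
  rw [Nat.card_eq_fintype_card, Fintype.card_fun, ZMod.card, Fintype.card_coe]

/-- the count for the tuples of different primes -/
theorem law_gen (J : Finset ι) (P : ι → Finset ℕ) (X : ι → ℕ) (κ : ℝ) (hκ : 0 ≤ κ)
    (hX : ∀ i, (P i).card ≤ X i) (hB : ∀ f : Un P → ι, HB J (Pf P f) X κ)
    (Q : (prs J → ZMod 3) → Prop) :
    |(((DBox P).filter fun p => Q fun e => lam (p e.1.1) (p e.1.2)).card : ℝ) -
      (Nat.card {α : prs J → ZMod 3 // Q α} : ℝ) / (Nat.card (prs J → ZMod 3) : ℝ) *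
        ((DBox P).card : ℝ)| ≤
    (Fintype.card ι : ℝ) ^ Fintype.card ι *
      ((Nat.card (prs J → ZMod 3) : ℝ) * (κ * ∏ j, (X j : ℝ))) := by
  refine law_col P (fun p => Q fun e => lam (p e.1.1) (p e.1.2)) _ _ fun f => ?_
  have h1 := Pool.Agent.Y419.CX.t_EQ ι J (Pf P f) X κ hκ (fun i =>
    (Finset.card_le_card (Finset.filter_subset _ _)).trans (hX i)) (hB f) Q
  have e1 : (univ.filter Q).card = Nat.card {α : prs J → ZMod 3 // Q α} := by
    rw [Nat.card_eq_fintype_card, Fintype.card_subtype]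
  have e2 : ∏ j, (((Pf P f) j).card : ℝ) = ((Fintype.piFinset (Pf P f)).card : ℝ) := by
    rw [Fintype.card_piFinset]
    push_cast
    rfl
  rw [e1, e2] at h1
  rw [card_fun_gen]
  push_cast
  exact h1

end Pool.Agent.T2H25.CB
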