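import Pool.Agent.T2H25.CB.Def
import Pool.Agent.T2H25.CB.Gen
import Pool.Agent.Y261.CX.BIL1
import Pool.Agent.Y779.CX.BIL2

/-!
# Cubic twists by the subproducts of a tuple of primes: the count in a box
-/

set_option autoImplicit false

open scoped Classical

namespace Pool.Agent.T2H25.CB

open Finset
open Pool.Agent.Y699.E (ez)
open Pool.Agent.Y703.CX (lam LamP prs HB)

variable {s r : ℕ}

/-- the cubic residue symbols of a tuple -/
noncomputable def dat (p : Fin s ⊕ Fin r → ℕ) : Fin s → Fin s ⊕ Fin r → ZMod 3 := fun i l =>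
  if l = Sum.inl i then 0 else lam (p (Sum.inl i)) (p l)

/-- the primes `1` modulo `3` -/
def J1 (s r : ℕ) : Finset (Fin s ⊕ Fin r) := univ.filter fun i => i.isLeft = true

theorem mem_J1 {i : Fin s ⊕ Fin r} : i ∈ J1 s r ↔ ∃ k, i = Sum.inl k := by
  unfold J1
  rw [mem_filter]
  rcases i with i | i
  · simp
  · simp

theorem mem_prs {k : Fin s} {l : Fin s ⊕ Fin r} : (Sum.inl k, l) ∈ prs (J1 s r) ↔ l ≠ Sum.inl k := by
  rw [mem_prs_gen]
  exact ⟨fun h => h.2, fun h => ⟨mem_J1.2 ⟨k, rfl⟩, h⟩⟩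

/-- the data of a completion -/
noncomputable def toR (α : prs (J1 s r) → ZMod 3) : Fin s → Fin s ⊕ Fin r → ZMod 3 :=
  fun i l => if h : l ≠ Sum.inl i then α ⟨(Sum.inl i, l), mem_prs.2 h⟩ else 0

theorem toR_apply (α : prs (J1 s r) → ZMod 3) {i : Fin s} {l : Fin s ⊕ Fin r} (h : l ≠ Sum.inl i) :
    toR α i l = α ⟨(Sum.inl i, l), mem_prs.2 h⟩ := by
  unfold toR
  rw [dif_pos h]

theorem toR_self (α : prs (J1 s r) → ZMod 3) (i : Fin s) : toR α i (Sum.inl i) = 0 := by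
  unfold toR
  rw [dif_neg fun h => h rfl]

theorem toR_inj {α β : prs (J1 s r) → ZMod 3} (hab : toR α = toR β) : α = β := by
  funext e
  obtain ⟨⟨k, l⟩, he⟩ := e
  obtain ⟨h2, h3⟩ := mem_prs_gen.1 he
  obtain ⟨i, hi⟩ := mem_J1.1 h2
  have hi' : k = Sum.inl i := hi
  subst hi'
  have h4 : l ≠ Sum.inl i := h3
  have h5 := congrFun (congrFun hab i) l
  rw [toR_apply α h4, toR_apply β h4] at h5
  exact h5

theorem toR_surj {R : Fin s → Fin s ⊕ Fin r → ZMod 3} (hR1 : ∀ i, R i (Sum.inl i) = 0) :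
    ∃ α : prs (J1 s r) → ZMod 3, toR α = R := by
  refine ⟨fun e => Sum.elim (fun i => R i e.1.2) (fun _ => 0) e.1.1, ?_⟩
  funext i l
  by_cases hl : l = Sum.inl i
  · subst hl
    rw [toR_self, hR1]
  · rw [toR_apply _ hl]
    rfl

theorem card_Q (Φ : (Fin s → Fin s ⊕ Fin r → ZMod 3) → Prop) :
    Nat.card {α : prs (J1 s r) → ZMod 3 // Φ (toR α)} = ((DR s r).filter Φ).card := by
  have hmem : ∀ α : {α : prs (J1 s r) → ZMod 3 // Φ (toR α)}, toR α.1 ∈ (DR s r).filter Φ := by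
    rintro ⟨α, hα⟩
    rw [mem_filter]
    refine ⟨?_, hα⟩
    unfold DR
    rw [mem_filter]
    exact ⟨mem_univ _, fun i => toR_self α i⟩
  rw [← Nat.card_eq_finsetCard]
  refine Nat.card_congr (Equiv.ofBijective (fun α => ⟨toR α.1, hmem α⟩) ⟨?_, ?_⟩)
  · rintro ⟨α, hα⟩ ⟨β, hβ⟩ hab
    exact Subtype.ext (toR_inj (Subtype.ext_iff.1 hab))
  · rintro ⟨R, hR⟩
    have hR' := hR
    rw [mem_filter] at hR'
    have hR1 : ∀ i, R i (Sum.inl i) = 0 := by
      have := hR'.1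
      unfold DR at this
      rw [mem_filter] at this
      exact this.2
    obtain ⟨α, hα⟩ := toR_surj hR1
    exact ⟨⟨α, by rw [hα]; exact hR'.2⟩, Subtype.ext hα⟩

theorem toR_lam (p : Fin s ⊕ Fin r → ℕ) :
    toR (fun e : prs (J1 s r) => lam (p e.1.1) (p e.1.2)) = dat p := by
  funext i l
  unfold dat
  by_cases hl : l = Sum.inl i
  · rw [if_pos hl, hl, toR_self]
  · rw [if_neg hl, toR_apply _ hl]

theorem card_fun : Nat.card (prs (J1 s r) → ZMod 3) = (DR s r).card := by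
  have h := card_Q (s := s) (r := r) fun _ => True
  simp only [Finset.filter_true] at h
  rw [← h]
  exact (Nat.card_congr (Equiv.subtypeUnivEquiv fun _ => trivial)).symm

/-- the hypothesis on the boxes -/
structure BX (P : Fin s ⊕ Fin r → Finset ℕ) (X : Fin s ⊕ Fin r → ℕ) (z : ℕ) : Prop where
  one : ∀ i, ∀ q ∈ P (Sum.inl i), q.Prime ∧ q % 3 = 1
  two : ∀ j, ∀ q ∈ P (Sum.inr j), q.Prime ∧ q % 3 = 2
  le : ∀ i, ∀ q ∈ P i, q ≤ X i
  z1 : 1 ≤ z
  zX : ∀ i, z ≤ X i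

theorem BX.prime {P : Fin s ⊕ Fin r → Finset ℕ} {X : Fin s ⊕ Fin r → ℕ} {z : ℕ} (h : BX P X z)
    (i : Fin s ⊕ Fin r) (q : ℕ) (hq : q ∈ P i) : q.Prime := by
  rcases i with i | i
  · exact (h.one i q hq).1
  · exact (h.two i q hq).1

theorem BX.mono {P P' : Fin s ⊕ Fin r → Finset ℕ} {X : Fin s ⊕ Fin r → ℕ} {z : ℕ} (h : BX P X z)
    (hP : ∀ i, P' i ⊆ P i) : BX P' X z where
  one := fun i q hq => h.one i q (hP _ hq)
  two := fun i q hq => h.two i q (hP _ hq)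
  le := fun i q hq => h.le i q (hP _ hq)
  z1 := h.z1
  zX := h.zX

theorem root12 {S C z T : ℝ} (hC : 0 ≤ C) (hz : 0 < z) (hT : 0 ≤ T)
    (h : S ^ 12 * z ≤ C * T ^ 12) : S ≤ (C / z) ^ (1 / 12 : ℝ) * T := by
  have h1 : S ^ 12 ≤ ((C / z) ^ (1 / 12 : ℝ) * T) ^ 12 := by
    rw [mul_pow, ← Real.rpow_natCast ((C / z) ^ (1 / 12 : ℝ)) 12, ← Real.rpow_mul (by positivity)]
    have e : (1 / 12 : ℝ) * ((12 : ℕ) : ℝ) = 1 := by norm_num
    rw [e, Real.rpow_one, div_mul_eq_mul_div, le_div_iff₀ hz]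
    exact h
  exact le_of_pow_le_pow_left₀ (by norm_num) (by positivity) h1

theorem exists_hb : ∃ C : ℝ, 1 ≤ C ∧ ∀ (s r : ℕ) (P : Fin s ⊕ Fin r → Finset ℕ)
    (X : Fin s ⊕ Fin r → ℕ) (z : ℕ), BX P X z → (∀ i l, i ≠ l → Disjoint (P i) (P l)) →
    HB (J1 s r) P X ((C / z) ^ (1 / 12 : ℝ)) := by
  obtain ⟨C₁, hC₁, h1⟩ := Pool.Agent.Y261.CX.t_BIL1 Pool.Agent.Y333.CX.t_LAM
  obtain ⟨C₂, hC₂, h2⟩ := Pool.Agent.Y779.CX.t_BIL2 Pool.Agent.Y333.CX.t_LAM
  refine ⟨max C₁ C₂, hC₁.trans (le_max_left _ _), ?_⟩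
  intro s r P X z hB hdis i l hil a b c d hab ha hb hc hd
  have hz0 : (0 : ℝ) < z := by exact_mod_cast hB.z1
  have hCp : (0 : ℝ) ≤ max C₁ C₂ := le_trans (by linarith) (le_max_left C₁ C₂)
  have fin : ∀ (S : ℂ) (C : ℝ), C ≤ max C₁ C₂ → ‖S‖ ^ 12 * z ≤ C * ((X i : ℝ) * X l) ^ 12 →
      ‖S‖ ≤ (max C₁ C₂ / z) ^ (1 / 12 : ℝ) * ((X i : ℝ) * X l) := by
    intro S C hC hS
    refine root12 hCp hz0 (by positivity) (hS.trans ?_)
    exact mul_le_mul_of_nonneg_right hC (by positivity)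
  rcases i with i | i
  · rcases l with l | l
    · refine fin _ C₁ (le_max_left _ _) ?_
      exact h1 (P (Sum.inl i)) (P (Sum.inl l)) _ _ z c d a b
        (fun p hp => ⟨(hB.one i p hp).1, (hB.one i p hp).2, hB.le _ p hp⟩)
        (fun q hq => ⟨(hB.one l q hq).1, (hB.one l q hq).2, hB.le _ q hq⟩)
        (hdis _ _ hil) hab hB.z1 (hB.zX _) (hB.zX _) hc hd
    · have hb0 : b = 0 := hb fun h => by
        obtain ⟨k, hk⟩ := mem_J1.1 h
        exact absurd hk (by simp)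
      have ha0 : a ≠ 0 := hab.resolve_right fun h => h hb0
      refine fin _ C₂ (le_max_right _ _) ?_
      have h3 := h2 (P (Sum.inl i)) (P (Sum.inr l)) (X (Sum.inl i)) (X (Sum.inr l)) z c d a
        (fun p hp => ⟨(hB.one i p hp).1, (hB.one i p hp).2, hB.le _ p hp⟩)
        (fun q hq => ⟨(hB.two l q hq).1, (hB.two l q hq).2, hB.le _ q hq⟩)
        ha0 hB.z1 (hB.zX _) (hB.zX _) hc hd
      rw [hb0]
      simpa only [zero_mul, add_zero] using h3
  · have ha0 : a = 0 := ha fun h => by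
      obtain ⟨k, hk⟩ := mem_J1.1 h
      exact absurd hk (by simp)
    have hb0 : b ≠ 0 := hab.resolve_left fun h => h ha0
    rcases l with l | l
    · refine fin _ C₂ (le_max_right _ _) ?_
      have h3 := h2 (P (Sum.inl l)) (P (Sum.inr i)) (X (Sum.inl l)) (X (Sum.inr i)) z d c b
        (fun p hp => ⟨(hB.one l p hp).1, (hB.one l p hp).2, hB.le _ p hp⟩)
        (fun q hq => ⟨(hB.two i q hq).1, (hB.two i q hq).2, hB.le _ q hq⟩)
        hb0 hB.z1 (hB.zX _) (hB.zX _) hd hc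
      rw [ha0]
      have e : ∑ x ∈ P (Sum.inr i), ∑ y ∈ P (Sum.inl l), c x * d y * ez (0 * lam x y + b * lam y x) =
          ∑ p ∈ P (Sum.inl l), ∑ q ∈ P (Sum.inr i), d p * c q * ez (b * lam p q) := by
        rw [Finset.sum_comm]
        refine Finset.sum_congr rfl fun y _ => Finset.sum_congr rfl fun x _ => ?_
        rw [zero_mul, zero_add]
        ring
      rw [e, mul_comm (X (Sum.inr i) : ℝ)]
      exact h3
    · exact absurd (hb fun h => by
        obtain ⟨k, hk⟩ := mem_J1.1 h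
        exact absurd hk (by simp)) hb0

/-- **The joint law of the symbols.** -/
theorem law : ∃ C : ℝ, 0 ≤ C ∧ ∀ (s r : ℕ) (P : Fin s ⊕ Fin r → Finset ℕ)
    (X : Fin s ⊕ Fin r → ℕ) (z : ℕ), BX P X z → ∀ Φ : (Fin s → Fin s ⊕ Fin r → ZMod 3) → Prop,
    |(((DBox P).filter fun p => Φ (dat p)).card : ℝ) - prob Φ * ((DBox P).card : ℝ)| ≤
    (s + r : ℝ) ^ (s + r) * (3 ^ (s * (s + r - 1)) *
      (C * (z : ℝ) ^ (-(1 / 12) : ℝ) * ∏ i, (X i : ℝ))) := by
  obtain ⟨C, hC, h⟩ := exists_hb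
  refine ⟨C ^ (1 / 12 : ℝ), by positivity, ?_⟩
  intro s r P X z hB Φ
  have hz0 : (0 : ℝ) < z := by exact_mod_cast hB.z1
  have h1 := law_gen (J1 s r) P X ((C / z) ^ (1 / 12 : ℝ))
    (by positivity) (fun i => by
      refine (Finset.card_le_card (t := Finset.Icc 1 (X i)) fun q hq => ?_).trans ?_
      · rw [mem_Icc]
        exact ⟨(hB.prime i q hq).pos, hB.le i q hq⟩
      · simp) (fun f => h s r (Pf P f) X z (hB.mono (Pf_sub P f))
        (Pf_disj P f)) fun α => Φ (toR α)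
  simp only [toR_lam] at h1
  rw [card_Q, card_fun] at h1
  refine h1.trans (le_of_eq ?_)
  rw [card_DR, Fintype.card_sum, Fintype.card_fin, Fintype.card_fin]
  push_cast
  rw [Real.div_rpow (by linarith) hz0.le, Real.rpow_neg hz0.le]
  ring

end Pool.Agent.T2H25.CB
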