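import Mathlib

/-!
# Tuples of different elements: the average over the colourings
-/

set_option autoImplicit false

open scoped Classical

namespace Pool.Agent.T2H25.CB

open Finset

variable {ι : Type} [Fintype ι]

/-- the tuples of different elements -/
noncomputable def DBox (P : ι → Finset ℕ) : Finset (ι → ℕ) :=
  (Fintype.piFinset P).filter Function.Injective

/-- all the elements -/
noncomputable def Un (P : ι → Finset ℕ) : Finset ℕ := univ.biUnion P

/-- the elements of one colour -/
noncomputable def Pf (P : ι → Finset ℕ) (f : Un P → ι) : ι → Finset ℕ := fun i =>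
  (P i).filter fun q => ∀ h : q ∈ Un P, f ⟨q, h⟩ = i

theorem mem_Un {P : ι → Finset ℕ} {i : ι} {q : ℕ} (h : q ∈ P i) : q ∈ Un P := by
  unfold Un
  rw [mem_biUnion]
  exact ⟨i, mem_univ _, h⟩

theorem Pf_sub (P : ι → Finset ℕ) (f : Un P → ι) (i : ι) : Pf P f i ⊆ P i :=
  Finset.filter_subset _ _

theorem Pf_disj (P : ι → Finset ℕ) (f : Un P → ι) (i l : ι) (h : i ≠ l) :
    Disjoint (Pf P f i) (Pf P f l) := by
  rw [Finset.disjoint_left]
  intro q hi hl
  unfold Pf at hi hl
  rw [mem_filter] at hi hl
  have hq := mem_Un hi.1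
  exact h ((hi.2 hq).symm.trans (hl.2 hq))

theorem card_col {P : ι → Finset ℕ} {p : ι → ℕ} (hp : p ∈ DBox P) :
    (univ.filter fun f : Un P → ι => ∀ (i : ι) (h : p i ∈ Un P), f ⟨p i, h⟩ = i).card *
      Fintype.card ι ^ Fintype.card ι = Fintype.card ι ^ (Un P).card := by
  unfold DBox at hp
  rw [mem_filter, Fintype.mem_piFinset] at hp
  obtain ⟨hp1, hp2⟩ := hp
  have hpU : ∀ i, p i ∈ Un P := fun i => mem_Un (hp1 i)
  have e1 : (univ.filter fun f : Un P → ι => ∀ (i : ι) (h : p i ∈ Un P), f ⟨p i, h⟩ = i) =
      Fintype.piFinset fun x : Un P => if h : ∃ i, p i = x then {h.choose} else univ := by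
    ext f
    rw [mem_filter, Fintype.mem_piFinset]
    constructor
    · rintro ⟨-, h⟩ x
      split_ifs with h1
      · rw [mem_singleton]
        have h2 := h1.choose_spec
        have h3 := h h1.choose (by rw [h2]; exact x.2)
        rw [← h3]
        congr 1
        exact Subtype.ext h2.symm
      · exact mem_univ _
    · intro h
      refine ⟨mem_univ _, fun i hi => ?_⟩
      have h1 := h ⟨p i, hi⟩
      have hex : ∃ k, p k = ((⟨p i, hi⟩ : Un P) : ℕ) := ⟨i, rfl⟩
      rw [dif_pos hex, mem_singleton] at h1
      rw [h1]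
      exact hp2 hex.choose_spec
  have e2 : ∀ x : Un P, (if h : ∃ i, p i = x then ({h.choose} : Finset ι) else univ).card =
      if ∃ i, p i = x then 1 else Fintype.card ι := by
    intro x
    split_ifs
    · rfl
    · rfl
  have e3 : (univ.filter fun x : Un P => ∃ i, p i = x).card = Fintype.card ι := by
    have h1 : (univ.filter fun x : Un P => ∃ i, p i = x) =
        univ.image fun i : ι => (⟨p i, hpU i⟩ : Un P) := by
      ext x
      rw [mem_filter, mem_image]
      constructor
      · rintro ⟨-, i, hi⟩
        exact ⟨i, mem_univ _, Subtype.ext hi⟩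
      · rintro ⟨i, -, rfl⟩
        exact ⟨mem_univ _, i, rfl⟩
    rw [h1, Finset.card_image_of_injective _ fun i l h => hp2 (Subtype.ext_iff.1 h)]
    rfl
  rw [e1, Fintype.card_piFinset, Finset.prod_congr rfl fun x _ => e2 x, Finset.prod_ite,
    Finset.prod_const_one, one_mul, Finset.prod_const, ← pow_add]
  congr 1
  have h4 := Finset.card_filter_add_card_filter_not (s := (univ : Finset (Un P)))
    (fun x : Un P => ∃ i, p i = x)
  rw [e3, Finset.card_univ, Fintype.card_coe] at h4
  omega

theorem mem_Pf {P : ι → Finset ℕ} {f : Un P → ι} {p : ι → ℕ} :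
    p ∈ Fintype.piFinset (Pf P f) ↔ p ∈ Fintype.piFinset P ∧
      ∀ (i : ι) (h : p i ∈ Un P), f ⟨p i, h⟩ = i := by
  rw [Fintype.mem_piFinset, Fintype.mem_piFinset]
  unfold Pf
  constructor
  · intro h
    exact ⟨fun i => (mem_filter.1 (h i)).1, fun i => (mem_filter.1 (h i)).2⟩
  · rintro ⟨h1, h2⟩ i
    rw [mem_filter]
    exact ⟨h1 i, h2 i⟩

/-- the sum over the colourings -/
theorem sum_col (P : ι → Finset ℕ) (Φ : (ι → ℕ) → Prop) :
    (∑ f : Un P → ι, ((Fintype.piFinset (Pf P f)).filter Φ).card) *
      Fintype.card ι ^ Fintype.card ι =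
      Fintype.card ι ^ (Un P).card * ((DBox P).filter Φ).card := by
  have e1 : ∑ f : Un P → ι, ((Fintype.piFinset (Pf P f)).filter Φ).card =
      ∑ p ∈ (DBox P).filter Φ, (univ.filter fun f : Un P → ι =>
        ∀ (i : ι) (h : p i ∈ Un P), f ⟨p i, h⟩ = i).card := by
    simp only [Finset.card_filter, Finset.card_eq_sum_ones, Finset.sum_filter]
    have e2 : ∀ f : Un P → ι, (∑ p ∈ Fintype.piFinset (Pf P f), if Φ p then 1 else 0) =
        ∑ p ∈ DBox P, if Φ p then (if ∀ (i : ι) (h : p i ∈ Un P), f ⟨p i, h⟩ = i then 1 else 0)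
          else 0 := by
      intro f
      have e3 : Fintype.piFinset (Pf P f) =
          (DBox P).filter fun p => ∀ (i : ι) (h : p i ∈ Un P), f ⟨p i, h⟩ = i := by
        ext p
        rw [mem_Pf, mem_filter]
        unfold DBox
        rw [mem_filter]
        constructor
        · rintro ⟨h1, h2⟩
          refine ⟨⟨h1, fun i l hil => ?_⟩, h2⟩
          have hi := mem_Un ((Fintype.mem_piFinset.1 h1) i)
          have hl := mem_Un ((Fintype.mem_piFinset.1 h1) l)
          rw [← h2 i hi, ← h2 l hl]
          congr 1
          exact Subtype.ext hil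
        · rintro ⟨⟨h1, -⟩, h2⟩
          exact ⟨h1, h2⟩
      rw [e3, Finset.sum_filter]
      refine Finset.sum_congr rfl fun p _ => ?_
      split_ifs
      · rfl
      · rfl
      · rfl
      · rfl
    rw [Finset.sum_congr rfl fun f _ => e2 f, Finset.sum_comm]
    refine Finset.sum_congr rfl fun p _ => ?_
    split_ifs
    · rfl
    · rw [Finset.sum_const_zero]
  rw [e1, Finset.sum_mul, mul_comm (Fintype.card ι ^ (Un P).card), ← smul_eq_mul (_ : ℕ),
    ← Finset.sum_const]
  exact Finset.sum_congr rfl fun p hp => card_col (mem_filter.1 hp).1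

/-- **From the disjoint boxes to the tuples of different elements.** -/
theorem law_col (P : ι → Finset ℕ) (Φ : (ι → ℕ) → Prop) (c E : ℝ)
    (h : ∀ f : Un P → ι, |(((Fintype.piFinset (Pf P f)).filter Φ).card : ℝ) -
      c * ((Fintype.piFinset (Pf P f)).card : ℝ)| ≤ E) :
    |(((DBox P).filter Φ).card : ℝ) - c * ((DBox P).card : ℝ)| ≤
      (Fintype.card ι : ℝ) ^ Fintype.card ι * E := by
  rcases (DBox P).eq_empty_or_nonempty with h0 | ⟨p₀, hp₀⟩
  · rw [h0, Finset.filter_empty, Finset.card_empty, Nat.cast_zero, mul_zero, sub_zero, abs_zero]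
    have hE : 0 ≤ E := by
      by_cases hne : Nonempty ((Un P) → ι)
      · obtain ⟨f⟩ := hne
        exact (abs_nonneg _).trans (h f)
      · exfalso
        rw [not_nonempty_iff] at hne
        have h1 : IsEmpty ι := by
          by_contra h2
          rw [not_isEmpty_iff] at h2
          obtain ⟨i⟩ := h2
          exact hne.false fun _ => i
        refine hne.false fun x => ?_
        exfalso
        have h3 := x.2
        unfold Un at h3
        rw [mem_biUnion] at h3
        obtain ⟨i, -⟩ := h3
        exact h1.false i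
    positivity
  · have hn0 : (0 : ℝ) < (Fintype.card ι : ℝ) ^ (Un P).card := by
      rcases Nat.eq_zero_or_pos (Fintype.card ι) with h1 | h1
      · have h2 : IsEmpty ι := Fintype.card_eq_zero_iff.1 h1
        have h3 : (Un P).card = 0 := by
          rw [Finset.card_eq_zero]
          refine Finset.eq_empty_of_forall_notMem fun x hx => ?_
          unfold Un at hx
          rw [mem_biUnion] at hx
          obtain ⟨i, -⟩ := hx
          exact h2.false i
        rw [h3, pow_zero]
        exact one_pos
      · have : (0 : ℝ) < Fintype.card ι := by exact_mod_cast h1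
        positivity
    have k1 := sum_col P Φ
    have k2 := sum_col P fun _ => True
    simp only [Finset.filter_true] at k2
    have k1' : (∑ f : Un P → ι, (((Fintype.piFinset (Pf P f)).filter Φ).card : ℝ)) *
        (Fintype.card ι : ℝ) ^ Fintype.card ι =
        (Fintype.card ι : ℝ) ^ (Un P).card * (((DBox P).filter Φ).card : ℝ) := by
      exact_mod_cast k1
    have k2' : (∑ f : Un P → ι, ((Fintype.piFinset (Pf P f)).card : ℝ)) *
        (Fintype.card ι : ℝ) ^ Fintype.card ι =
        (Fintype.card ι : ℝ) ^ (Un P).card * ((DBox P).card : ℝ) := by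
      exact_mod_cast k2
    have k3 : (Fintype.card ι : ℝ) ^ (Un P).card *
        ((((DBox P).filter Φ).card : ℝ) - c * ((DBox P).card : ℝ)) =
        (∑ f : Un P → ι, ((((Fintype.piFinset (Pf P f)).filter Φ).card : ℝ) -
          c * ((Fintype.piFinset (Pf P f)).card : ℝ))) * (Fintype.card ι : ℝ) ^ Fintype.card ι := by
      rw [Finset.sum_sub_distrib, ← Finset.mul_sum, mul_sub, ← k1', sub_mul, mul_assoc c, k2']
      ring
    have k4 : |∑ f : Un P → ι, ((((Fintype.piFinset (Pf P f)).filter Φ).card : ℝ) -
        c * ((Fintype.piFinset (Pf P f)).card : ℝ))| ≤ (Fintype.card ι : ℝ) ^ (Un P).card * E := by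
      refine (Finset.abs_sum_le_sum_abs _ _).trans ((Finset.sum_le_sum fun f _ => h f).trans ?_)
      rw [Finset.sum_const, Finset.card_univ, Fintype.card_fun, Fintype.card_coe, nsmul_eq_mul]
      push_cast
      exact le_refl _
    have k5 : (Fintype.card ι : ℝ) ^ (Un P).card *
        |(((DBox P).filter Φ).card : ℝ) - c * ((DBox P).card : ℝ)| ≤
        (Fintype.card ι : ℝ) ^ (Un P).card * ((Fintype.card ι : ℝ) ^ Fintype.card ι * E) := by
      calc (Fintype.card ι : ℝ) ^ (Un P).card *
          |(((DBox P).filter Φ).card : ℝ) - c * ((DBox P).card : ℝ)|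
          = |(Fintype.card ι : ℝ) ^ (Un P).card *
            ((((DBox P).filter Φ).card : ℝ) - c * ((DBox P).card : ℝ))| := by
            rw [abs_mul, abs_of_pos hn0]
        _ = |∑ f : Un P → ι, ((((Fintype.piFinset (Pf P f)).filter Φ).card : ℝ) -
              c * ((Fintype.piFinset (Pf P f)).card : ℝ))| *
              (Fintype.card ι : ℝ) ^ Fintype.card ι := by
            rw [k3, abs_mul, abs_of_nonneg (by positivity : (0 : ℝ) ≤
              (Fintype.card ι : ℝ) ^ Fintype.card ι)]
        _ ≤ (Fintype.card ι : ℝ) ^ (Un P).card * E * (Fintype.card ι : ℝ) ^ Fintype.card ι :=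
            mul_le_mul_of_nonneg_right k4 (by positivity)
        _ = _ := by ring
    exact le_of_mul_le_mul_left k5 hn0

/-- the number of the tuples of different elements -/
theorem card_DBox (P : ι → Finset ℕ) (M : ℝ) (hM : ∀ i, M ≤ (P i).card) (hM0 : 0 < M) :
    (1 - (Fintype.card ι : ℝ) ^ 2 / M) * ((Fintype.piFinset P).card : ℝ) ≤ ((DBox P).card : ℝ) := by
  have h1 : (Fintype.piFinset P).card ≤ (DBox P).card +
      ∑ e ∈ (univ : Finset (ι × ι)).filter fun e => e.1 ≠ e.2,
        ((Fintype.piFinset P).filter fun p => p e.1 = p e.2).card := by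
    refine le_trans (Finset.card_le_card (t := DBox P ∪
      ((univ : Finset (ι × ι)).filter fun e => e.1 ≠ e.2).biUnion
        fun e => (Fintype.piFinset P).filter fun p => p e.1 = p e.2) fun p hp => ?_)
      ((Finset.card_union_le _ _).trans (Nat.add_le_add_left Finset.card_biUnion_le _))
    rw [mem_union]
    by_cases hi : Function.Injective p
    · left
      unfold DBox
      rw [mem_filter]
      exact ⟨hp, hi⟩
    · right
      unfold Function.Injective at hi
      push Not at hi
      obtain ⟨i, l, h2, h3⟩ := hi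
      rw [mem_biUnion]
      exact ⟨(i, l), by rw [mem_filter]; exact ⟨mem_univ _, h3⟩, by rw [mem_filter]; exact ⟨hp, h2⟩⟩
  have h2 : ∀ e ∈ (univ : Finset (ι × ι)).filter fun e => e.1 ≠ e.2,
      (((Fintype.piFinset P).filter fun p => p e.1 = p e.2).card : ℝ) ≤
        ((Fintype.piFinset P).card : ℝ) / M := by
    rintro ⟨i, l⟩ he
    rw [mem_filter] at he
    have hil : i ≠ l := he.2
    simp only
    have h3 : ((Fintype.piFinset P).filter fun p => p i = p l).card ≤
        (Fintype.piFinset (Function.update P l {0})).card := by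
      refine Finset.card_le_card_of_injOn (fun p => Function.update p l 0) ?_ ?_
      · intro p hp
        rw [Finset.mem_coe, mem_filter, Fintype.mem_piFinset] at hp
        rw [Finset.mem_coe, Fintype.mem_piFinset]
        intro k
        by_cases hk : k = l
        · subst hk
          simp
        · simp only [Function.update_of_ne hk]
          exact hp.1 k
      · intro p hp q hq hpq
        rw [Finset.mem_coe, mem_filter] at hp hq
        have h4 : ∀ k, k ≠ l → p k = q k := by
          intro k hk
          have := congrFun hpq k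
          simpa only [Function.update_of_ne hk] using this
        funext k
        by_cases hk : k = l
        · rw [hk, ← hp.2, ← hq.2, h4 i hil]
        · exact h4 k hk
    have h4 : (Fintype.piFinset (Function.update P l {0})).card * (P l).card =
        (Fintype.piFinset P).card := by
      rw [Fintype.card_piFinset, Fintype.card_piFinset,
        ← Finset.mul_prod_erase univ (fun k => (P k).card) (mem_univ l),
        ← Finset.mul_prod_erase univ (fun k => (Function.update P l {0} k).card) (mem_univ l)]
      rw [Function.update_self, Finset.card_singleton, one_mul, mul_comm]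
      congr 1
      refine Finset.prod_congr rfl fun k hk => ?_
      rw [Function.update_of_ne (Finset.ne_of_mem_erase hk)]
    rw [le_div_iff₀ hM0]
    calc (((Fintype.piFinset P).filter fun p => p i = p l).card : ℝ) * M
        ≤ ((Fintype.piFinset (Function.update P l {0})).card : ℝ) * ((P l).card : ℝ) :=
          mul_le_mul (by exact_mod_cast h3) (hM l) hM0.le (Nat.cast_nonneg _)
      _ = _ := by exact_mod_cast h4
  have h3 : (((Fintype.piFinset P).card : ℕ) : ℝ) ≤ ((DBox P).card : ℝ) +
      ∑ e ∈ (univ : Finset (ι × ι)).filter fun e => e.1 ≠ e.2,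
        (((Fintype.piFinset P).filter fun p => p e.1 = p e.2).card : ℝ) := by
    exact_mod_cast h1
  have h4 : ∑ e ∈ (univ : Finset (ι × ι)).filter fun e => e.1 ≠ e.2,
        (((Fintype.piFinset P).filter fun p => p e.1 = p e.2).card : ℝ) ≤
      (Fintype.card ι : ℝ) ^ 2 * (((Fintype.piFinset P).card : ℝ) / M) := by
    refine (Finset.sum_le_sum h2).trans ?_
    rw [Finset.sum_const, nsmul_eq_mul]
    refine mul_le_mul_of_nonneg_right ?_ (by positivity)
    have h5 : ((univ : Finset (ι × ι)).filter fun e => e.1 ≠ e.2).card ≤ Fintype.card ι ^ 2 := by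
      refine (Finset.card_filter_le _ _).trans ?_
      rw [Finset.card_univ, Fintype.card_prod, sq]
    exact_mod_cast h5
  have h5 : (1 - (Fintype.card ι : ℝ) ^ 2 / M) * ((Fintype.piFinset P).card : ℝ) =
      ((Fintype.piFinset P).card : ℝ) -
        (Fintype.card ι : ℝ) ^ 2 * (((Fintype.piFinset P).card : ℝ) / M) := by
    ring
  rw [h5]
  linarith

theorem card_DBox' (P : ι → Finset ℕ) (M : ℝ) (hM : ∀ i, M ≤ (P i).card) (hM0 : 0 < M) :
    (1 - (Fintype.card ι : ℝ) ^ 2 / M) * ∏ i, ((P i).card : ℝ) ≤ ((DBox P).card : ℝ) := by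
  refine le_trans (le_of_eq ?_) (card_DBox P M hM hM0)
  rw [Fintype.card_piFinset]
  push_cast
  rfl

end Pool.Agent.T2H25.CB
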