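import Pool.Agent.T2H25.CB.Alg
import Pool.Agent.Y703.CX.Rank
import Pool.Agent.R419.CF.NS
import Pool.Agent.Y333.CX.LAM

/-!
# Cubic twists by the subproducts of a tuple of primes: the criterion

`p : Fin s ⊕ Fin r → ℕ` is a tuple of primes, the first `s` of them `1` modulo `3`, the others `2` modulo `3`.
-/

set_option autoImplicit false

open scoped Classical

namespace Pool.Agent.T2H25.CB

open Finset
open Pool.Agent.Y703.CX (lam LamP prs HB ext)
open Pool.Agent.Y703.CT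
open Pool.Agent.R419.CF (wt GdW SolW)
open Pool.Agent.R419.CF.NS (MD gdw_of_nosplit nosplit_of_gdw)

variable {s r : ℕ}

/-- a tuple of different primes in the classes -/
structure Tup (p : Fin s ⊕ Fin r → ℕ) : Prop where
  inj : Function.Injective p
  prime : ∀ i, (p i).Prime
  one : ∀ i, p (Sum.inl i) % 3 = 1
  two : ∀ j, p (Sum.inr j) % 3 = 2

theorem Tup.ne3 {p : Fin s ⊕ Fin r → ℕ} (h : Tup p) (i : Fin s ⊕ Fin r) : p i ≠ 3 := by
  rcases i with i | i
  · have := h.one i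
    intro h1; rw [h1] at this; norm_num at this
  · have := h.two i
    intro h1; rw [h1] at this; norm_num at this

theorem Tup.ne0 {p : Fin s ⊕ Fin r → ℕ} (h : Tup p) (e : Fin s ⊕ Fin r → ZMod 3) : num p e ≠ 0 :=
  Finset.prod_ne_zero_iff.2 fun i _ => pow_ne_zero _ (h.prime i).ne_zero

theorem Tup.fac {p : Fin s ⊕ Fin r → ℕ} (h : Tup p) (e : Fin s ⊕ Fin r → ZMod 3) (q : ℕ) :
    (num p e).factorization q = ∑ i, if p i = q then (e i).val else 0 := by
  unfold num
  rw [Nat.factorization_prod fun i _ => pow_ne_zero _ (h.prime i).ne_zero, Finsupp.finsetSum_apply]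
  refine Finset.sum_congr rfl fun i _ => ?_
  rw [(h.prime i).factorization_pow, Finsupp.single_apply]

theorem Tup.fac_self {p : Fin s ⊕ Fin r → ℕ} (h : Tup p) (e : Fin s ⊕ Fin r → ZMod 3)
    (i : Fin s ⊕ Fin r) : (num p e).factorization (p i) = (e i).val := by
  rw [h.fac, Finset.sum_eq_single i]
  · rw [if_pos rfl]
  · intro j _ hj
    rw [if_neg fun h1 => hj (h.inj h1)]
  · intro h1
    exact absurd (mem_univ i) h1

theorem Tup.dvd_iff {p : Fin s ⊕ Fin r → ℕ} (h : Tup p) (e : Fin s ⊕ Fin r → ZMod 3) {q : ℕ}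
    (hq : q.Prime) : q ∣ num p e ↔ ∃ i, e i ≠ 0 ∧ p i = q := by
  constructor
  · intro h1
    unfold num at h1
    obtain ⟨i, -, hi⟩ := (Prime.dvd_finsetProd_iff hq.prime _).1 h1
    have h2 := (Nat.prime_dvd_prime_iff_eq hq (h.prime i)).1 (hq.dvd_of_dvd_pow hi)
    refine ⟨i, fun h3 => ?_, h2.symm⟩
    rw [h3, ZMod.val_zero, pow_zero] at hi
    exact hq.one_lt.ne' (Nat.dvd_one.1 hi)
  · rintro ⟨i, hi, rfl⟩
    unfold num
    refine dvd_trans ?_ (Finset.dvd_prod_of_mem _ (mem_univ i))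
    exact dvd_pow_self _ fun h1 => hi ((ZMod.val_eq_zero _).1 h1)

theorem Tup.pf {p : Fin s ⊕ Fin r → ℕ} (h : Tup p) (e : Fin s ⊕ Fin r → ZMod 3) :
    (num p e).primeFactors = (univ.filter fun i => e i ≠ 0).image p := by
  ext q
  rw [Nat.mem_primeFactors, Finset.mem_image]
  constructor
  · rintro ⟨hq, h1, -⟩
    obtain ⟨i, hi, h2⟩ := (h.dvd_iff e hq).1 h1
    exact ⟨i, by rw [mem_filter]; exact ⟨mem_univ _, hi⟩, h2⟩
  · rintro ⟨i, hi, rfl⟩
    rw [mem_filter] at hi
    exact ⟨h.prime i, (h.dvd_iff e (h.prime i)).2 ⟨i, hi.2, rfl⟩, h.ne0 e⟩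

theorem Tup.cls {p : Fin s ⊕ Fin r → ℕ} (h : Tup p) {e : Fin s ⊕ Fin r → ZMod 3}
    (he : ∃! j : Fin r, e (Sum.inr j) ≠ 0) (h1 : num p e % 9 ≠ 1) (h8 : num p e % 9 ≠ 8) :
    Cls (num p e) := by
  obtain ⟨j0, hj0, hj1⟩ := he
  refine ⟨⟨h.ne0 e, fun h3 => ?_, fun q hq hd => ?_⟩, h1, h8, p (Sum.inr j0), h.prime _, h.two _,
    (h.dvd_iff e (h.prime _)).2 ⟨_, hj0, rfl⟩, fun q hq hd hne => ?_⟩
  · obtain ⟨i, -, hi⟩ := (h.dvd_iff e Nat.prime_three).1 h3
    exact h.ne3 i hi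
  · obtain ⟨i, -, hi⟩ := (h.dvd_iff e hq).1 ((dvd_pow_self q (by norm_num)).trans hd)
    subst hi
    rw [hq.pow_dvd_iff_le_factorization (h.ne0 e), h.fac_self e i] at hd
    have := ZMod.val_lt (e i)
    omega
  · obtain ⟨i, hi, hi2⟩ := (h.dvd_iff e hq).1 hd
    subst hi2
    rcases i with i | i
    · exact h.one i
    · exact absurd (by rw [hj1 i hi]) hne

theorem Tup.wt_eq {p : Fin s ⊕ Fin r → ℕ} (h : Tup p) (e : Fin s ⊕ Fin r → ZMod 3)
    {i : Fin s ⊕ Fin r} (hi : e i ≠ 0) : wt (MD (num p e)) (p i) = e i := by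
  have hm : p i ∈ MD (num p e) ↔ (e i).val = 2 := by
    unfold MD
    rw [mem_filter, (h.prime i).pow_dvd_iff_le_factorization (h.ne0 e), h.fac_self e i, h.pf e]
    have := ZMod.val_lt (e i)
    constructor
    · rintro ⟨-, h1⟩
      omega
    · intro h1
      exact ⟨mem_image_of_mem _ (by rw [mem_filter]; exact ⟨mem_univ _, hi⟩), by omega⟩
  unfold wt
  by_cases h2 : (e i).val = 2
  · rw [if_pos (hm.2 h2)]
    have : e i = ((2 : ℕ) : ZMod 3) := by rw [← h2, ZMod.natCast_zmod_val]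
    rw [this]; rfl
  · rw [if_neg (fun h3 => h2 (hm.1 h3))]
    have h3 : (e i).val = 1 := by
      have := ZMod.val_lt (e i)
      have h4 : (e i).val ≠ 0 := fun h5 => hi ((ZMod.val_eq_zero _).1 h5)
      omega
    have : e i = ((1 : ℕ) : ZMod 3) := by rw [← h3, ZMod.natCast_zmod_val]
    rw [this]; rfl

/-- the criterion -/
theorem Tup.nosplit {p : Fin s ⊕ Fin r → ℕ} (h : Tup p) {e : Fin s ⊕ Fin r → ZMod 3}
    (he : ∃! j : Fin r, e (Sum.inr j) ≠ 0) (h1 : num p e % 9 ≠ 1) (h8 : num p e % 9 ≠ 8)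
    (R : Fin s → Fin s ⊕ Fin r → ZMod 3)
    (hR : ∀ i l, l ≠ Sum.inl i → R i l = lam (p (Sum.inl i)) (p l)) :
    NoSplit (num p e) ↔ (mat R e).det ≠ 0 := by
  have hcl := h.cls he h1 h8
  rw [det_iff R e he]
  have hterm : ∀ (c : Fin s ⊕ Fin r → ZMod 3) (i : Fin s) (l : Fin s ⊕ Fin r),
      (c l - c (Sum.inl i)) * (e l * R i l) =
        (c l - c (Sum.inl i)) * (e l * lam (p (Sum.inl i)) (p l)) := by
    intro c i l
    by_cases hl : l = Sum.inl i
    · rw [hl, sub_self, zero_mul, zero_mul]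
    · rw [hR i l hl]
  have hsum : ∀ (c : ℕ → ZMod 3) (i : Fin s),
      ∑ q ∈ (num p e).primeFactors, (c q - c (p (Sum.inl i))) *
        (wt (MD (num p e)) q * lam (p (Sum.inl i)) q) =
      ∑ l, (c (p l) - c (p (Sum.inl i))) * (e l * lam (p (Sum.inl i)) (p l)) := by
    intro c i
    rw [h.pf e, Finset.sum_image fun a _ b _ hab => h.inj hab]
    rw [← Finset.sum_filter_add_sum_filter_not univ (fun l => e l ≠ 0)
      (fun l => (c (p l) - c (p (Sum.inl i))) * (e l * lam (p (Sum.inl i)) (p l)))]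
    rw [show ∑ l ∈ univ.filter (fun l => ¬ (e l ≠ 0)),
      (c (p l) - c (p (Sum.inl i))) * (e l * lam (p (Sum.inl i)) (p l)) = 0 from
      Finset.sum_eq_zero fun l hl => by
        rw [mem_filter, not_not] at hl
        rw [hl.2]; ring, add_zero]
    refine Finset.sum_congr rfl fun l hl => ?_
    rw [mem_filter] at hl
    rw [h.wt_eq e hl.2]
  constructor
  · intro hn
    have hg := gdw_of_nosplit Pool.Agent.Y333.CX.t_LAM hcl hn
    intro c hc i l hi hl
    -- the function on the primes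
    set c' : ℕ → ZMod 3 := fun q => if hq : ∃ i, p i = q then c hq.choose else 0 with hc'
    have hcc : ∀ i, c' (p i) = c i := by
      intro i
      have hex : ∃ k, p k = p i := ⟨i, rfl⟩
      simp only [hc', dif_pos hex]
      rw [h.inj hex.choose_spec]
    have h2 := hg c' (by
      intro q hq hq1
      rw [h.pf e, mem_image] at hq
      obtain ⟨k, hk, rfl⟩ := hq
      rw [mem_filter] at hk
      rcases k with k | k
      · rw [hsum c' k]
        simp only [hcc]
        rw [← hc k hk.2]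
        exact Finset.sum_congr rfl fun l _ => (hterm c k l).symm
      · have := h.two k
        omega) (p i) (by rw [h.pf e]; exact mem_image_of_mem _ (by rw [mem_filter]; exact ⟨mem_univ _, hi⟩))
      (p l) (by rw [h.pf e]; exact mem_image_of_mem _ (by rw [mem_filter]; exact ⟨mem_univ _, hl⟩))
    rwa [hcc, hcc] at h2
  · intro hg
    refine nosplit_of_gdw Pool.Agent.Y333.CX.t_LAM hcl ?_
    intro c hc q hq q' hq'
    rw [h.pf e, mem_image] at hq hq'
    obtain ⟨i, hi, rfl⟩ := hq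
    obtain ⟨l, hl, rfl⟩ := hq'
    rw [mem_filter] at hi hl
    refine hg (fun k => c (p k)) (fun k hk => ?_) i l hi.2 hl.2
    have h2 := hc (p (Sum.inl k)) (by
      rw [h.pf e]; exact mem_image_of_mem _ (by rw [mem_filter]; exact ⟨mem_univ _, hk⟩)) (h.one k)
    rw [hsum c k] at h2
    rw [← h2]
    exact Finset.sum_congr rfl fun l _ => hterm (fun k => c (p k)) k l

end Pool.Agent.T2H25.CB
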