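import Pool.Agent.T2H25.CB.Lim

/-!
# Cubic twists by the subproducts of a tuple of primes: the final form
-/

set_option autoImplicit false

open scoped Classical

namespace Pool.Agent.T2H25.CB

open Finset Filter Topology
open Pool.Agent.Y703.CX (lam)
open Pool.Agent.Y703.CT
open Pool.Agent.W97.MT (IsGloballyMinimal)
open Pool.Agent.Y700 (Omega)
open Pool.Agent.V11291.FK (Dn)

variable {s r : ℕ}

/-- The `3`-part of the formula holds for `E_D : y² + D y = x³`, both sides being prime to `3`: the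
equation is minimal, `E_D(ℚ)` is finite, `Ш(E_D/ℚ)[3^∞] = 0`, `L(E_D, s)` is entire, `L(E_D, 1) ≠ 0`
and `L(E_D, 1) |E_D(ℚ)_tors|² / (Ω ∏ c_p)` is a unit at `3`. -/
def ThreePart (D : ℕ) : Prop :=
  IsGloballyMinimal (WD D) ∧ Triv3 D ∧ ∃ f : ℂ → ℂ, IsL (WD D) f ∧ f 1 ≠ 0 ∧ ∃ u : ℂ,
    f 1 = u * (((Omega (WD D) : ℝ) : ℂ) * (tamProd (WD D) : ℂ) / (tors D : ℂ) ^ 2) ∧ ThreeUnit u

theorem threePart_iff {D : ℕ} (hC : Cls D) : ThreePart D ↔ Triv3 D := by
  constructor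
  · exact fun h => h.2.1
  · intro h
    obtain ⟨hmin, f, hf, u, hu, -, h1, -⟩ := fin_all hC
    have hU := h1.2 h
    exact ⟨hmin, h, f, hf, Pool.Agent.Y703.CX.val_ne hC h.1 hU.1 hu, u, hu, hU⟩

theorem filt {α : Type} {S : Finset α} {p q : α → Prop} {dp : DecidablePred p}
    {dq : DecidablePred q} (h : ∀ x ∈ S, (p x ↔ q x)) :
    (@Finset.filter α p dp S).card = (@Finset.filter α q dq S).card :=
  congrArg Finset.card (Finset.filter_congr h)

/-- The exponents of the twists: exactly one of the last `r` primes divides the number, and the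
number is not `±1` modulo `9` (this depends only on the residues `ρ` of the primes modulo `9`). -/
noncomputable def Ex (ρ : Fin s ⊕ Fin r → ℕ) : Finset (Fin s ⊕ Fin r → ZMod 3) :=
  univ.filter fun e => (∃! j : Fin r, e (Sum.inr j) ≠ 0) ∧ num ρ e % 9 ≠ 1 ∧ num ρ e % 9 ≠ 8

theorem mem_Ex {ρ : Fin s ⊕ Fin r → ℕ} {e : Fin s ⊕ Fin r → ZMod 3} :
    e ∈ Ex ρ ↔ (∃! j : Fin r, e (Sum.inr j) ≠ 0) ∧ num ρ e % 9 ≠ 1 ∧ num ρ e % 9 ≠ 8 := by
  unfold Ex
  rw [mem_filter]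
  exact ⟨fun h => h.2, fun h => ⟨mem_univ _, h⟩⟩

theorem num_mod {p ρ : Fin s ⊕ Fin r → ℕ} (h : ∀ i, p i % 9 = ρ i % 9)
    (e : Fin s ⊕ Fin r → ZMod 3) : num p e % 9 = num ρ e % 9 := by
  unfold num
  rw [Finset.prod_nat_mod, Finset.prod_nat_mod univ 9 fun i => ρ i ^ (e i).val]
  congr 1
  refine Finset.prod_congr rfl fun i _ => ?_
  rw [Nat.pow_mod, h i, ← Nat.pow_mod]

theorem Ex_congr {p ρ : Fin s ⊕ Fin r → ℕ} (h : ∀ i, p i % 9 = ρ i % 9) : Ex p = Ex ρ := by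
  ext e
  rw [mem_Ex, mem_Ex, num_mod h]

theorem dat_self (p : Fin s ⊕ Fin r → ℕ) (i : Fin s) : dat p i (Sum.inl i) = 0 := by
  unfold dat
  rw [if_pos rfl]

theorem dat_apply (p : Fin s ⊕ Fin r → ℕ) {i : Fin s} {l : Fin s ⊕ Fin r} (h : l ≠ Sum.inl i) :
    dat p i l = lam (p (Sum.inl i)) (p l) := by
  unfold dat
  rw [if_neg h]

/-- the symbols and the cubes -/
theorem dat_cube {p : Fin s ⊕ Fin r → ℕ} (h : Tup p) (i : Fin s) (l : Fin s ⊕ Fin r)
    (hl : l ≠ Sum.inl i) :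
    dat p i l = 0 ↔ ∃ x : ℤ, (p (Sum.inl i) : ℤ) ∣ (p l : ℤ) - x ^ 3 := by
  rw [dat_apply p hl]
  refine Pool.Agent.Y333.CX.t_LAM.cube _ _ (h.prime _) (h.one i) fun hd => ?_
  have h1 := (Nat.prime_dvd_prime_iff_eq (h.prime _) (h.prime _)).1 hd
  exact hl (h.inj h1).symm

/-- **The criterion.** -/
theorem crit {p : Fin s ⊕ Fin r → ℕ} (h : Tup p) {e : Fin s ⊕ Fin r → ZMod 3} (he : e ∈ Ex p) :
    Cls (num p e) ∧ (Triv3 (num p e) ↔ (mat (dat p) e).det ≠ 0) ∧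
      (ThreePart (num p e) ↔ (mat (dat p) e).det ≠ 0) := by
  obtain ⟨h1, h2, h3⟩ := mem_Ex.1 he
  have hC := h.cls h1 h2 h3
  have h4 := h.nosplit h1 h2 h3 (dat p) fun i l hl => dat_apply p hl
  obtain ⟨-, f, -, u, -, -, -, h5⟩ := fin_all hC
  have h6 : Triv3 (num p e) ↔ (mat (dat p) e).det ≠ 0 := h5.trans h4
  exact ⟨hC, h6, (threePart_iff hC).trans h6⟩

/-- Sets of primes: `P i` is a set of primes at most `X i`, all of them congruent to `ρ i` modulo `9`,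
where `ρ i ≡ 1` modulo `3` for the first `s` indices and `ρ i ≡ 2` for the last `r`. -/
structure Boxes (ρ : Fin s ⊕ Fin r → ℕ) (P : Fin s ⊕ Fin r → Finset ℕ) (X : Fin s ⊕ Fin r → ℕ)
    (z : ℕ) : Prop where
  one : ∀ i, ρ (Sum.inl i) % 3 = 1
  two : ∀ j, ρ (Sum.inr j) % 3 = 2
  mem : ∀ i, ∀ q ∈ P i, q.Prime ∧ q % 9 = ρ i % 9 ∧ q ≤ X i
  z1 : 1 ≤ z
  zX : ∀ i, z ≤ X i

theorem Boxes.bx {ρ : Fin s ⊕ Fin r → ℕ} {P : Fin s ⊕ Fin r → Finset ℕ} {X : Fin s ⊕ Fin r → ℕ}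
    {z : ℕ} (h : Boxes ρ P X z) : BX P X z where
  one := fun i q hq => ⟨(h.mem _ q hq).1, by
    have h1 := (h.mem _ q hq).2.1
    have h2 := h.one i
    omega⟩
  two := fun i q hq => ⟨(h.mem _ q hq).1, by
    have h1 := (h.mem _ q hq).2.1
    have h2 := h.two i
    omega⟩
  le := fun i q hq => (h.mem i q hq).2.2
  z1 := h.z1
  zX := h.zX

theorem tup_of {ρ p : Fin s ⊕ Fin r → ℕ} (h1 : ∀ i, ρ (Sum.inl i) % 3 = 1)
    (h2 : ∀ j, ρ (Sum.inr j) % 3 = 2) (hp : ∀ i, (p i).Prime ∧ p i % 9 = ρ i % 9)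
    (hi : Function.Injective p) : Tup p where
  inj := hi
  prime := fun i => (hp i).1
  one := fun i => by
    have := (hp (Sum.inl i)).2
    have := h1 i
    omega
  two := fun i => by
    have := (hp (Sum.inr i)).2
    have := h2 i
    omega

theorem mem_DBox {ι : Type} [Fintype ι] {P : ι → Finset ℕ} {p : ι → ℕ} :
    p ∈ DBox P ↔ (∀ i, p i ∈ P i) ∧ Function.Injective p := by
  unfold DBox
  rw [mem_filter, Fintype.mem_piFinset]

theorem all_crit {ρ p : Fin s ⊕ Fin r → ℕ} (h1 : ∀ i, ρ (Sum.inl i) % 3 = 1)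
    (h2 : ∀ j, ρ (Sum.inr j) % 3 = 2) (hp : ∀ i, (p i).Prime ∧ p i % 9 = ρ i % 9)
    (hi : Function.Injective p) (V : Finset (Fin s ⊕ Fin r → ZMod 3)) :
    (∀ e ∈ Ex ρ, (ThreePart (num p e) ↔ e ∈ V)) ↔
      ∀ e ∈ Ex ρ, ((mat (dat p) e).det ≠ 0 ↔ e ∈ V) := by
  have ht := tup_of h1 h2 hp hi
  refine forall₂_congr fun e he => ?_
  rw [← Ex_congr fun i => (hp i).2] at he
  rw [(crit ht he).2.2]

/-- **The joint law.** -/
theorem joint : ∃ C : ℝ, 0 ≤ C ∧ ∀ (s r : ℕ) (ρ : Fin s ⊕ Fin r → ℕ) (P : Fin s ⊕ Fin r → Finset ℕ)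
    (X : Fin s ⊕ Fin r → ℕ) (z : ℕ), Boxes ρ P X z → ∀ V : Finset (Fin s ⊕ Fin r → ZMod 3),
    |(((DBox P).filter fun p => ∀ e ∈ Ex ρ, (ThreePart (num p e) ↔ e ∈ V)).card : ℝ) -
      prob (fun R => ∀ e ∈ Ex ρ, ((mat R e).det ≠ 0 ↔ e ∈ V)) * ((DBox P).card : ℝ)| ≤
    (s + r : ℝ) ^ (s + r) * (3 ^ (s * (s + r - 1)) *
      (C * (z : ℝ) ^ (-(1 / 12) : ℝ) * ∏ i, (X i : ℝ))) := by
  obtain ⟨C, hC, h⟩ := law
  refine ⟨C, hC, fun s r ρ P X z hB V => ?_⟩
  have h1 := h s r P X z hB.bx fun R => ∀ e ∈ Ex ρ, ((mat R e).det ≠ 0 ↔ e ∈ V)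
  refine le_trans (le_of_eq ?_) h1
  congr 3
  exact filt (fun p hp => all_crit hB.one hB.two (fun i => ⟨(hB.mem i _ ((mem_DBox.1 hp).1 i)).1,
      (hB.mem i _ ((mem_DBox.1 hp).1 i)).2.1⟩) (mem_DBox.1 hp).2 V)

/-- the limit law -/
theorem joint_lim {ρ : Fin s ⊕ Fin r → ℕ} {A : Fin s ⊕ Fin r → ℕ → Prop}
    (h1 : ∀ i, ρ (Sum.inl i) % 3 = 1) (h2 : ∀ j, ρ (Sum.inr j) % 3 = 2)
    (hA : ∀ i q, A i q → q.Prime ∧ q % 9 = ρ i % 9) (hD : ∀ i, Dn (A i))
    (V : Finset (Fin s ⊕ Fin r → ZMod 3)) :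
    Tendsto (fun X : ℕ => (((DBox (Up A X)).filter fun p =>
        ∀ e ∈ Ex ρ, (ThreePart (num p e) ↔ e ∈ V)).card : ℝ) / ((DBox (Up A X)).card : ℝ)) atTop
      (𝓝 (prob fun R => ∀ e ∈ Ex ρ, ((mat R e).det ≠ 0 ↔ e ∈ V))) := by
  have h := lim_law hD (fun i q hq => ⟨(hA _ q hq).1, by
      have h3 := (hA _ q hq).2
      have h4 := h1 i
      omega⟩) (fun i q hq => ⟨(hA _ q hq).1, by
      have h3 := (hA _ q hq).2
      have h4 := h2 i
      omega⟩) fun R => ∀ e ∈ Ex ρ, ((mat R e).det ≠ 0 ↔ e ∈ V)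
  refine h.congr fun X => ?_
  congr 2
  refine filt fun p hp => (all_crit h1 h2 (fun i => ?_) (mem_DBox.1 hp).2 V).symm
  have h3 := (mem_DBox.1 hp).1 i
  unfold Up at h3
  exact hA i _ (mem_filter.1 h3).2

/-! ### All the twists -/

theorem card_One (s r : ℕ) : (One s r).card = r * (2 * 3 ^ s) := by
  have h0 : One s r = univ.biUnion fun j : Fin r =>
      Fintype.piFinset fun l : Fin s ⊕ Fin r => Sum.elim (fun _ => (univ : Finset (ZMod 3)))
        (fun k => if k = j then {1, 2} else {0}) l := by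
    ext e
    unfold One
    rw [mem_filter, mem_biUnion]
    have h4 : ∀ x : ZMod 3, x ≠ 0 ↔ x ∈ ({1, 2} : Finset (ZMod 3)) := by decide
    constructor
    · rintro ⟨-, j, hj, hj1⟩
      refine ⟨j, mem_univ _, ?_⟩
      rw [Fintype.mem_piFinset]
      rintro (l | l)
      · exact mem_univ _
      · simp only [Sum.elim_inr]
        split_ifs with h
        · rw [h]
          exact (h4 _).1 hj
        · rw [mem_singleton]
          by_contra h5
          exact h (hj1 l h5)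
    · rintro ⟨j, -, hj⟩
      rw [Fintype.mem_piFinset] at hj
      refine ⟨mem_univ _, j, ?_, fun l hl => ?_⟩
      · have := hj (Sum.inr j)
        simp only [Sum.elim_inr, if_pos rfl] at this
        exact (h4 _).2 this
      · by_contra h5
        have := hj (Sum.inr l)
        simp only [Sum.elim_inr, if_neg h5, mem_singleton] at this
        exact hl this
  rw [h0, Finset.card_biUnion]
  · have h1 : ∀ j : Fin r, (Fintype.piFinset fun l : Fin s ⊕ Fin r =>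
        Sum.elim (fun _ => (univ : Finset (ZMod 3))) (fun k => if k = j then {1, 2} else {0})
          l).card = 2 * 3 ^ s := by
      intro j
      have h3 : ({1, 2} : Finset (ZMod 3)).card = 2 := Finset.card_pair (by decide)
      rw [Fintype.card_piFinset, Fintype.prod_sum_type]
      simp only [Sum.elim_inl, Sum.elim_inr, Finset.card_univ, ZMod.card, Finset.prod_const,
        Fintype.card_fin]
      rw [Finset.prod_eq_single j]
      · rw [if_pos rfl, h3, mul_comm]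
      · intro k _ hk
        rw [if_neg hk, Finset.card_singleton]
      · intro h
        exact absurd (mem_univ _) h
    rw [Finset.sum_congr rfl fun j _ => h1 j, Finset.sum_const, Finset.card_univ,
      Fintype.card_fin, smul_eq_mul]
  · intro j _ k _ hjk
    rw [Function.onFun, Finset.disjoint_left]
    intro e he he2
    rw [Fintype.mem_piFinset] at he he2
    have g1 := he (Sum.inr j)
    have g2 := he2 (Sum.inr j)
    simp only [Sum.elim_inr, if_pos rfl] at g1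
    simp only [Sum.elim_inr, if_neg hjk, mem_singleton] at g2
    rw [g2] at g1
    exact absurd g1 (by decide)

theorem Ex_eq_One {ρ : Fin s ⊕ Fin r → ℕ} (h1 : ∀ i, ρ (Sum.inl i) % 9 = 1)
    (h2 : ∀ j, ρ (Sum.inr j) % 9 = 2 ∨ ρ (Sum.inr j) % 9 = 5) : Ex ρ = One s r := by
  ext e
  rw [mem_Ex]
  unfold One
  rw [mem_filter]
  constructor
  · rintro ⟨h, -⟩
    exact ⟨mem_univ _, h⟩
  · rintro ⟨-, h⟩
    refine ⟨h, ?_⟩
    obtain ⟨j, hj, hj1⟩ := h
    have key : num ρ e % 9 = ρ (Sum.inr j) ^ (e (Sum.inr j)).val % 9 := by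
      unfold num
      rw [Fintype.prod_sum_type, Nat.mul_mod, Finset.prod_nat_mod]
      rw [Finset.prod_congr rfl fun i _ => by
        rw [Nat.pow_mod, h1 i, one_pow], Finset.prod_const]
      rw [Finset.prod_eq_single j (fun k _ hk => by
        have : e (Sum.inr k) = 0 := by
          by_contra h5
          exact hk (hj1 k h5)
        rw [this, ZMod.val_zero, pow_zero]) fun h5 => absurd (mem_univ _) h5]
      norm_num
    have hv : (e (Sum.inr j)).val = 1 ∨ (e (Sum.inr j)).val = 2 := by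
      have g1 := ZMod.val_lt (e (Sum.inr j))
      have g2 : (e (Sum.inr j)).val ≠ 0 := fun h5 => hj ((ZMod.val_eq_zero _).1 h5)
      omega
    rw [key, Nat.pow_mod]
    rcases hv with h | h <;> rcases h2 j with h3 | h3 <;> rw [h, h3] <;> norm_num

/-- for which tuples all the twists are good -/
theorem all_iff_cubes {p : Fin s ⊕ Fin r → ℕ} (hr : 0 < r) (h : Tup p) (hE : Ex p = One s r) :
    (∀ e ∈ Ex p, ThreePart (num p e)) ↔
      (∀ i l : Fin s, i ≠ l → ∃ x : ℤ, (p (Sum.inl i) : ℤ) ∣ (p (Sum.inl l) : ℤ) - x ^ 3) ∧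
      ∀ (i : Fin s) (j : Fin r), ¬ ∃ x : ℤ, (p (Sum.inl i) : ℤ) ∣ (p (Sum.inr j) : ℤ) - x ^ 3 := by
  have h1 : (∀ e ∈ Ex p, ThreePart (num p e)) ↔ ∀ e ∈ One s r, (mat (dat p) e).det ≠ 0 := by
    rw [← hE]
    exact forall₂_congr fun e he => (crit h he).2.2
  rw [h1, all_iff hr (dat_self p)]
  refine and_congr ⟨fun g i l hil => ?_, fun g i l => ?_⟩ ⟨fun g i j => ?_, fun g i j => ?_⟩
  · exact (dat_cube h i _ (by simpa using Ne.symm hil)).1 (g i l)
  · by_cases hil : i = l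
    · rw [hil, dat_self]
    · exact (dat_cube h i _ (by simpa using Ne.symm hil)).2 (g i l hil)
  · rw [← dat_cube h i _ (by simp)]
    exact g i j
  · intro h0
    exact g i j ((dat_cube h i _ (by simp)).1 h0)

/-- all the twists -/
theorem all_lim {ρ : Fin s ⊕ Fin r → ℕ} {A : Fin s ⊕ Fin r → ℕ → Prop} (hr : 0 < r)
    (h1 : ∀ i, ρ (Sum.inl i) % 9 = 1) (h2 : ∀ j, ρ (Sum.inr j) % 9 = 2 ∨ ρ (Sum.inr j) % 9 = 5)
    (hA : ∀ i q, A i q → q.Prime ∧ q % 9 = ρ i % 9) (hD : ∀ i, Dn (A i)) :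
    Tendsto (fun X : ℕ => (((DBox (Up A X)).filter fun p =>
        ∀ e ∈ Ex ρ, ThreePart (num p e)).card : ℝ) / ((DBox (Up A X)).card : ℝ)) atTop
      (𝓝 ((2 / 3) ^ (r * s) * (1 / 3) ^ (s * (s - 1)))) := by
  have h := joint_lim (ρ := ρ) (A := A) (fun i => by have := h1 i; omega)
    (fun j => by have := h2 j; omega) hA hD univ
  have e1 : prob (fun R : Fin s → Fin s ⊕ Fin r → ZMod 3 =>
      ∀ e ∈ Ex ρ, ((mat R e).det ≠ 0 ↔ e ∈ (univ : Finset (Fin s ⊕ Fin r → ZMod 3)))) =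
      (2 / 3) ^ (r * s) * (1 / 3) ^ (s * (s - 1)) := by
    rw [← prob_all s r hr]
    refine prob_congr fun R _ => ?_
    rw [Ex_eq_One h1 h2]
    refine forall₂_congr fun e _ => ?_
    simp only [mem_univ, iff_true]
  rw [e1] at h
  refine h.congr fun X => ?_
  congr 2
  refine filt fun p _ => ?_
  simp only [mem_univ, iff_true]

end Pool.Agent.T2H25.CB
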