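import Pool.Agent.T2H25.CB.Box
import Pool.Agent.V11291.FK.Low

/-!
# Cubic twists by the subproducts of a tuple of primes: the limit law
-/

set_option autoImplicit false

open scoped Classical

namespace Pool.Agent.T2H25.CB

open Finset Filter Topology
open Pool.Agent.V11291.FK (Dn)

theorem lim_gen {n : ℕ} {K δ c : ℝ} {F G : ℕ → ℝ} (hδ : 0 < δ)
    (h1 : ∀ᶠ X : ℕ in atTop, |F X - c * G X| ≤ K * ((X : ℝ) ^ (-(1 / 12) : ℝ) * (X : ℝ) ^ n))
    (h2 : ∀ᶠ X : ℕ in atTop, 1 / 2 * (δ * (X / Real.log X)) ^ n ≤ G X) :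
    Tendsto (fun X => F X / G X) atTop (𝓝 c) := by
  have h3 : Tendsto (fun x : ℝ => Real.log x ^ (n : ℝ) / x ^ (1 / 12 : ℝ)) atTop (𝓝 0) :=
    (isLittleO_log_rpow_rpow_atTop (n : ℝ) (by norm_num : (0 : ℝ) < 1 / 12)).tendsto_div_nhds_zero
  have h4 : Tendsto (fun X : ℕ => 2 * |K| / δ ^ n *
      (Real.log (X : ℝ) ^ (n : ℝ) / (X : ℝ) ^ (1 / 12 : ℝ))) atTop (𝓝 0) := by
    have := (h3.comp tendsto_natCast_atTop_atTop).const_mul (2 * |K| / δ ^ n)
    rw [mul_zero] at this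
    exact this
  rw [tendsto_iff_norm_sub_tendsto_zero]
  refine squeeze_zero' (Eventually.of_forall fun X => norm_nonneg _) ?_ h4
  filter_upwards [h1, h2, eventually_ge_atTop 2] with X k1 k2 hX
  have hX0 : (0 : ℝ) < X := by
    have : (2 : ℝ) ≤ X := by exact_mod_cast hX
    linarith
  have hlog : 0 < Real.log X := Real.log_pos (by
    have : (2 : ℝ) ≤ X := by exact_mod_cast hX
    linarith)
  have hM : 0 < 1 / 2 * (δ * ((X : ℝ) / Real.log X)) ^ n := by positivity
  have hG : 0 < G X := hM.trans_le k2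
  rw [Real.norm_eq_abs]
  have e1 : F X / G X - c = (F X - c * G X) / G X := by
    field_simp
  rw [e1, abs_div, abs_of_pos hG]
  refine (div_le_div₀ (by positivity) (k1.trans (mul_le_mul_of_nonneg_right (le_abs_self K)
    (by positivity))) hM k2).trans (le_of_eq ?_)
  rw [Real.rpow_neg hX0.le, Real.rpow_natCast, mul_pow, div_pow]
  have hXn : (X : ℝ) ^ n ≠ 0 := by positivity
  have hln : Real.log (X : ℝ) ^ n ≠ 0 := by positivity
  have hδn : δ ^ n ≠ 0 := by positivity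
  have hX12 : (X : ℝ) ^ (1 / 12 : ℝ) ≠ 0 := by positivity
  field_simp

variable {s r : ℕ}

/-- the sets of the primes up to `X` -/
noncomputable def Up (A : Fin s ⊕ Fin r → ℕ → Prop) (X : ℕ) : Fin s ⊕ Fin r → Finset ℕ :=
  fun i => (range (X + 1)).filter (A i)

theorem box_low {A : Fin s ⊕ Fin r → ℕ → Prop} (hA : ∀ i, Dn (A i)) :
    ∃ δ : ℝ, 0 < δ ∧ ∀ᶠ X : ℕ in atTop,
      1 / 2 * (δ * (X / Real.log X)) ^ (s + r) ≤ ((DBox (Up A X)).card : ℝ) := by
  choose d Y hd hY using hA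
  obtain ⟨δ, hδ, hδd⟩ : ∃ δ : ℝ, 0 < δ ∧ ∀ i, δ ≤ d i := by
    rcases isEmpty_or_nonempty (Fin s ⊕ Fin r) with h | h
    · exact ⟨1, one_pos, fun i => (h.false i).elim⟩
    · obtain ⟨i, -, hi⟩ := Finset.exists_min_image univ d ⟨Classical.arbitrary _, mem_univ _⟩
      exact ⟨d i, hd i, fun l => hi l (mem_univ _)⟩
  refine ⟨δ, hδ, ?_⟩
  have hinf : Tendsto (fun X : ℕ => δ * ((X : ℝ) / Real.log X)) atTop atTop := by
    have h1 : Tendsto (fun x : ℝ => x / Real.log x) atTop atTop := by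
      have h2 := Real.isLittleO_log_id_atTop.tendsto_div_nhds_zero
      have h3 : Tendsto (fun x : ℝ => (Real.log x / x)⁻¹) atTop atTop := by
        refine Tendsto.inv_tendsto_nhdsGT_zero (tendsto_nhdsWithin_iff.2 ⟨h2, ?_⟩)
        filter_upwards [eventually_gt_atTop 1] with x hx
        exact div_pos (Real.log_pos hx) (by linarith)
      refine h3.congr fun x => ?_
      rw [inv_div]
    exact (h1.comp tendsto_natCast_atTop_atTop).const_mul_atTop hδ
  have hall : ∀ᶠ X : ℕ in atTop, ∀ i, Y i ≤ X := by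
    rw [eventually_all]
    exact fun i => eventually_ge_atTop (Y i)
  filter_upwards [hall, eventually_ge_atTop 2,
    hinf.eventually_ge_atTop (2 * ((s + r : ℕ) : ℝ) ^ 2 + 1)] with X hX hX2 hbig
  set M : ℝ := δ * ((X : ℝ) / Real.log X) with hM
  have hM0 : 0 < M := lt_of_lt_of_le (by positivity) hbig
  have hlog : 0 ≤ (X : ℝ) / Real.log X := by
    by_contra h
    push Not at h
    have : M < 0 := mul_neg_of_pos_of_neg hδ h
    linarith
  have hMi : ∀ i, M ≤ ((Up A X i).card : ℝ) := by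
    intro i
    refine le_trans ?_ (hY i X (hX i))
    exact mul_le_mul_of_nonneg_right (hδd i) hlog
  have h1 := card_DBox' (Up A X) M hMi hM0
  rw [Fintype.card_sum, Fintype.card_fin, Fintype.card_fin] at h1
  refine le_trans ?_ h1
  refine mul_le_mul ?_ ?_ (by positivity) ?_
  · rw [le_sub_iff_add_le, ← le_sub_iff_add_le', div_le_iff₀ hM0]
    linarith
  · calc M ^ (s + r) = ∏ _i : Fin s ⊕ Fin r, M := by
          rw [Finset.prod_const, Finset.card_univ, Fintype.card_sum, Fintype.card_fin,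
            Fintype.card_fin]
      _ ≤ ∏ i : Fin s ⊕ Fin r, ((Up A X i).card : ℝ) :=
          Finset.prod_le_prod (fun _ _ => hM0.le) fun i _ => hMi i
  · have : ((s + r : ℕ) : ℝ) ^ 2 / M ≤ 1 / 2 := by
      rw [div_le_iff₀ hM0]
      linarith
    linarith

/-- **The limit law.** -/
theorem lim_law {A : Fin s ⊕ Fin r → ℕ → Prop} (hD : ∀ i, Dn (A i))
    (h1 : ∀ i q, A (Sum.inl i) q → q.Prime ∧ q % 3 = 1)
    (h2 : ∀ j q, A (Sum.inr j) q → q.Prime ∧ q % 3 = 2)
    (Φ : (Fin s → Fin s ⊕ Fin r → ZMod 3) → Prop) :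
    Tendsto (fun X : ℕ => (((DBox (Up A X)).filter fun p => Φ (dat p)).card : ℝ) /
      ((DBox (Up A X)).card : ℝ)) atTop (𝓝 (prob Φ)) := by
  obtain ⟨C, hC, h⟩ := law
  obtain ⟨δ, hδ, hlow⟩ := box_low hD
  refine lim_gen (n := s + r) (K := (s + r : ℝ) ^ (s + r) * (3 ^ (s * (s + r - 1)) * C)) hδ ?_ hlow
  filter_upwards [eventually_ge_atTop 1] with X hX
  have h3 := h s r (Up A X) (fun _ => X) X ⟨fun i q hq => h1 i q (mem_filter.1 hq).2,
    fun j q hq => h2 j q (mem_filter.1 hq).2, fun i q hq => by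
      have := (mem_filter.1 hq).1
      rw [mem_range] at this
      omega, hX, fun _ => le_refl _⟩ Φ
  refine h3.trans (le_of_eq ?_)
  rw [Finset.prod_const, Finset.card_univ, Fintype.card_sum, Fintype.card_fin, Fintype.card_fin]
  ring

end Pool.Agent.T2H25.CB
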